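import Pool.Agent.UC.Poly

set_option autoImplicit false

/-!
# Sandwich regions of polynomial functions in every dimension

The region between the upper envelope of n polynomials and the lower envelope of n polynomials in N
variables, all of degree at most D, has at most C(N, D, ε) n^(N + ε) transversal vertices.
-/

namespace Pool.Agent.Results.MP_5a1161_co.PolynomialSandwich

theorem result (N D : ℕ) (ε : ℝ) (hε : 0 < ε) : ∃ C : ℝ, ∀ (n : ℕ)
    (f g : Fin n → MvPolynomial (Fin N) ℝ),
    (∀ i, (f i).totalDegree ≤ D) → (∀ j, (g j).totalDegree ≤ D) →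
    {v : (Fin N → ℝ) × ℝ | UC.IsTransVertex f g v.1 v.2}.Finite ∧
    ({v : (Fin N → ℝ) × ℝ | UC.IsTransVertex f g v.1 v.2}.ncard : ℝ) ≤
      C * (n : ℝ) ^ ((N : ℝ) + ε) :=
  UC.poly_sandwich N D ε hε

end Pool.Agent.Results.MP_5a1161_co.PolynomialSandwich
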