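import Pool.Agent.KR.L_Main
import Pool.Agent.KR.U1

set_option autoImplicit false

/-!
# The regular vertices of the union of round bodies, without general position
-/

namespace Pool.Agent.Results.MP_5a1161_co.RegularVertices

open MvPolynomial Metric

/-- `c` is a `κ`-round body: compact, with nonempty interior, and every boundary point `p` lies in
a closed ball of radius `κ * diam c` that is contained in `c`. -/
structure IsRound {d : ℕ} (κ : ℝ) (c : Set (EuclideanSpace ℝ (Fin d))) : Prop where
  compact : IsCompact c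
  body : (interior c).Nonempty
  round : ∀ p ∈ frontier c, ∃ q, p ∈ closedBall q (κ * diam c) ∧ closedBall q (κ * diam c) ⊆ c

/-- A description: `s` polynomials of degree at most `b` in `d` variables, and a predicate on the
vectors of their signs (a Boolean combination of polynomial equalities and inequalities). -/
structure Desc (d s b : ℕ) where
  P : Fin s → MvPolynomial (Fin d) ℝ
  degree_le : ∀ j, (P j).totalDegree ≤ b
  Φ : (Fin s → SignType) → Prop

/-- The value of a polynomial at a point. -/
noncomputable def val {d : ℕ} (Q : MvPolynomial (Fin d) ℝ) (x : EuclideanSpace ℝ (Fin d)) : ℝ :=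
  eval (fun i => x i) Q

/-- The set with description `D`. -/
def Desc.set {d s b : ℕ} (D : Desc d s b) : Set (EuclideanSpace ℝ (Fin d)) :=
  {x | D.Φ fun j => SignType.sign (val (D.P j) x)}

/-- `x` is a regular vertex of the union of the family `D`: it lies in exactly `d` of the bodies,
and on the boundary of each of them; exactly one polynomial `l i` of the description of each of
these bodies `i` vanishes at `x`; and the gradients at `x` of these `d` polynomials are linearly
independent. -/
def IsRegularVertex {d s b n : ℕ} (D : Fin n → Desc d s b) (x : EuclideanSpace ℝ (Fin d)) : Prop :=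
  ∃ (T : Finset (Fin n)) (l : Fin n → Fin s), T.card = d ∧ (∀ i, x ∈ (D i).set ↔ i ∈ T) ∧
    (∀ i ∈ T, x ∈ frontier (D i).set) ∧
    (∀ i ∈ T, ∀ j, val ((D i).P j) x = 0 ↔ j = l i) ∧
    LinearIndependent ℝ fun i : T => fderiv ℝ (val ((D i.1).P (l i.1))) x

/-- For all `d ≥ 2`, `κ > 0`, `s`, `b`, `ε > 0` the union of `n` `κ`-round bodies of description
complexity `(s, b)` in `ℝ^d`, of arbitrary sizes and in arbitrary position, has at most
`C n^(d - 1 + ε)` regular vertices. -/
theorem result (d : ℕ) (hd : 2 ≤ d) (κ : ℝ) (hκ : 0 < κ) (s b : ℕ) (ε : ℝ) (hε : 0 < ε) :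
    ∃ C : ℝ, ∀ (n : ℕ) (D : Fin n → Desc d s b), (∀ i, IsRound κ (D i).set) →
      {x | IsRegularVertex D x}.Finite ∧
        ({x | IsRegularVertex D x}.ncard : ℝ) ≤ C * (n : ℝ) ^ ((d : ℝ) - 1 + ε) := by
  classical
  obtain ⟨N, rfl⟩ : ∃ N, d = N + 1 := ⟨d - 1, by omega⟩
  have hexp : ((N + 1 : ℕ) : ℝ) - 1 + ε = (N : ℝ) + ε := by
    push_cast
    ring
  have hN : 1 ≤ N := by omega
  obtain ⟨C, _, h⟩ := KR.u1 N s b hN κ ε hε (KR.lc N s b hN κ ε hκ hε)
  refine ⟨C, fun n D hr => ?_⟩
  let D' : Fin n → KR.Desc (N + 1) s := fun i => ⟨(D i).P, (D i).Φ⟩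
  have hr' : KR.RoundFam κ b D' :=
    fun i => ⟨⟨(hr i).compact, (hr i).body, (hr i).round⟩, (D i).degree_le⟩
  have hset : {x | IsRegularVertex D x} = {v | ∃ T l, KR.RegV D' T l v} := by
    ext x
    constructor
    · rintro ⟨T, l, h1, h2, h3, h4, h5⟩
      exact ⟨T, l, ⟨h1, h2, h3, h4, h5⟩⟩
    · rintro ⟨T, l, h1⟩
      exact ⟨T, l, h1.card, h1.mem, h1.front, h1.zero, h1.indep⟩
  have h1 := h (Fin n) D' hr'
  rw [← hset, Fintype.card_fin] at h1
  rw [hexp]
  exact h1

end Pool.Agent.Results.MP_5a1161_co.RegularVertices
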