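import Pool.Agent.KR.L_Main
import Pool.Agent.KR.U1
import Pool.Agent.KR.F_U2
import Pool.Agent.KR.F_Vert
import Pool.Agent.KR.B_Gen

set_option autoImplicit false

/-!
# The complexity of the union of round bodies in every dimension

For every `d ≥ 2`, `κ > 0`, `s`, `b`, `ε > 0` the union of `n` `κ`-round bodies of description
complexity `(s, b)` in general position in `ℝ^d` has at most `C n^(d - 1 + ε)` faces of all
dimensions, and `n^(d - 1)` is a lower bound for the maximum if `κ < 1/2`, `s ≥ 1`, `b ≥ 2`.

Remarks (not needed for the theorem).

* General position. `GenPos` is weaker than the usual assumption, that the polynomials which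
  describe the bodies are in general position: it only concerns the boundary points of the union.
  It is generic: by Sard's theorem, applied to the maps given by at most `d + 1` of the describing
  polynomials, it holds for almost all values of the constant terms of these polynomials. It allows
  reflex edges and corners of the single bodies.
* Faces. The faces of the arrangement of the boundaries are the connected components of the sets of
  the points that are on exactly the same boundaries. In general position the set of the points
  with this property is, near a boundary point of the union, contained in the boundary of the union,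
  so that every face of the arrangement that meets the boundary of the union lies on it, and
  `faces` is the set of these faces. `fineFaces` is the finer subdivision by the zero sets of the
  describing polynomials, in which the reflex edges and corners of a single body are separate faces.
* The parameters. For `κ > 1/2` there are no `κ`-round bodies, since a body `c` contains no ball of
  radius larger than `diam c / 2`, and for `κ = 1/2` only balls, for which the order of growth
  `n^⌈d/2⌉` is known. For `b ≤ 1` there are no bodies either, as a body described by polynomials of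
  degree at most one has convex vertices.
-/

namespace Pool.Agent.Results.MP_5a1161_co.UnionComplexity

open MvPolynomial Metric

/-- `c` is a `κ`-round body: compact, with nonempty interior, and every boundary point `p` lies in
a closed ball of radius `κ * diam c` that is contained in `c`. -/
structure IsRound {d : ℕ} (κ : ℝ) (c : Set (EuclideanSpace ℝ (Fin d))) : Prop where
  compact : IsCompact c
  body : (interior c).Nonempty
  round : ∀ p ∈ frontier c, ∃ q, p ∈ closedBall q (κ * diam c) ∧ closedBall q (κ * diam c) ⊆ c

/-- A description: `s` polynomials of degree at most `b` in `d` variables, and a predicate on the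
vectors of their signs (a Boolean combination of polynomial equalities and inequalities). -/
structure Desc (d s b : ℕ) where
  P : Fin s → MvPolynomial (Fin d) ℝ
  degree_le : ∀ j, (P j).totalDegree ≤ b
  Φ : (Fin s → SignType) → Prop

/-- The value of a polynomial at a point. -/
noncomputable def val {d : ℕ} (Q : MvPolynomial (Fin d) ℝ) (x : EuclideanSpace ℝ (Fin d)) : ℝ :=
  eval (fun i => x i) Q

/-- The set with description `D`. -/
def Desc.set {d s b : ℕ} (D : Desc d s b) : Set (EuclideanSpace ℝ (Fin d)) :=
  {x | D.Φ fun j => SignType.sign (val (D.P j) x)}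

/-- The boundary of the union of a family. -/
def bd {d s b n : ℕ} (D : Fin n → Desc d s b) : Set (EuclideanSpace ℝ (Fin d)) :=
  frontier (⋃ i, (D i).set)

/-- The pairs `(i, j)` such that `x` is on the boundary of the body `i` and the polynomial number
`j` of the description of this body vanishes at `x`. -/
def act {d s b n : ℕ} (D : Fin n → Desc d s b) (x : EuclideanSpace ℝ (Fin d)) :
    Set (Fin n × Fin s) :=
  {a | x ∈ frontier (D a.1).set ∧ val ((D a.1).P a.2) x = 0}

/-- General position: at every boundary point `x` of the union, the gradients at `x` of the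
polynomials with numbers in `act D x` are linearly independent. -/
def GenPos {d s b n : ℕ} (D : Fin n → Desc d s b) : Prop :=
  ∀ x ∈ bd D, LinearIndependent ℝ fun a : act D x => fderiv ℝ (val ((D a.1.1).P a.1.2)) x

/-- The faces, of all dimensions, of the arrangement of the boundaries of the bodies which lie on
the boundary of the union: the connected components of the sets of the boundary points of the union
that lie on the boundaries of exactly the same bodies. -/
def faces {d s b n : ℕ} (D : Fin n → Desc d s b) : Set (Set (EuclideanSpace ℝ (Fin d))) :=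
  {f | ∃ x ∈ bd D, f = connectedComponentIn
    {y | y ∈ bd D ∧ ∀ i, y ∈ frontier (D i).set ↔ x ∈ frontier (D i).set} x}

/-- The faces of the finer subdivision of the boundary of the union in which the reflex edges and
corners of the single bodies are separate faces: the connected components of the sets of the
boundary points `y` of the union with the same set `act D y`. -/
def fineFaces {d s b n : ℕ} (D : Fin n → Desc d s b) : Set (Set (EuclideanSpace ℝ (Fin d))) :=
  {f | ∃ x ∈ bd D, f = connectedComponentIn {y | y ∈ bd D ∧ act D y = act D x} x}

section aux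

variable {d s b n : ℕ}

/-- Conversion to the library definition. -/
def conv (D : Fin n → Desc d s b) : Fin n → KR.Desc d s := fun i => ⟨(D i).P, (D i).Φ⟩

theorem conv_set (D : Fin n → Desc d s b) (i : Fin n) : (conv D i).set = (D i).set := rfl

theorem conv_bd (D : Fin n → Desc d s b) : frontier (KR.Un (conv D)) = bd D := rfl

theorem conv_round (κ : ℝ) (D : Fin n → Desc d s b) (h : ∀ i, IsRound κ (D i).set) :
    KR.RoundFam κ b (conv D) :=
  fun i => ⟨⟨(h i).compact, (h i).body, (h i).round⟩, (D i).degree_le⟩

theorem conv_genPos (D : Fin n → Desc d s b) (h : GenPos D) : KR.GenPos (conv D) :=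
  fun x hx => h x hx

theorem conv_faces (D : Fin n → Desc d s b) : KR.Faces (conv D) = faces D := by
  have h : ∀ x, {y | y ∈ frontier (KR.Un (conv D)) ∧ KR.bdl (conv D) y = KR.bdl (conv D) x} =
      {y | y ∈ bd D ∧ ∀ i, y ∈ frontier (D i).set ↔ x ∈ frontier (D i).set} := by
    intro x
    ext y
    exact and_congr Iff.rfl Set.ext_iff
  unfold KR.Faces faces
  simp only [h]
  rfl

theorem conv_fineFaces (D : Fin n → Desc d s b) : KR.FineFaces (conv D) = fineFaces D := rfl

end aux

/-- For all `d ≥ 2` and `κ > 0` the complexity of the union of `n` `κ`-round bodies of description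
complexity `(s, b)` in general position in `ℝ^d` is at most `C n^(d - 1 + ε)` for every `ε > 0`
(even if the reflex edges of the single bodies are counted as faces); for `κ < 1/2`, `s ≥ 1`,
`b ≥ 2` it can be as large as `c n^(d - 1)`. -/
theorem result (d : ℕ) (hd : 2 ≤ d) (κ : ℝ) (hκ : 0 < κ) (s b : ℕ) :
    (∀ ε : ℝ, 0 < ε → ∃ C : ℝ, ∀ (n : ℕ) (D : Fin n → Desc d s b),
      (∀ i, IsRound κ (D i).set) → GenPos D →
        (faces D).Finite ∧ (fineFaces D).Finite ∧ (faces D).ncard ≤ (fineFaces D).ncard ∧
          ((fineFaces D).ncard : ℝ) ≤ C * (n : ℝ) ^ ((d : ℝ) - 1 + ε)) ∧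
    (κ < 1 / 2 → 1 ≤ s → 2 ≤ b → ∃ c : ℝ, 0 < c ∧ ∀ n : ℕ, d ≤ n →
      ∃ D : Fin n → Desc d s b, (∀ i, IsRound κ (D i).set) ∧ GenPos D ∧
        c * (n : ℝ) ^ (d - 1) ≤ ((faces D).ncard : ℝ)) := by
  classical
  obtain ⟨N, rfl⟩ : ∃ N, d = N + 1 := ⟨d - 1, by omega⟩
  have hN : 1 ≤ N := by omega
  have hexp : ∀ ε : ℝ, ((N + 1 : ℕ) : ℝ) - 1 + ε = (N : ℝ) + ε := by
    intro ε
    push_cast
    ring
  have hu2 : ∀ ε : ℝ, 0 < ε → KR.U2Statement N s b κ ε := fun ε hε =>
    KR.u2 N s b κ ε hN hε (KR.u1 N s b hN κ ε hε (KR.lc N s b hN κ ε hκ hε))
  refine ⟨?_, ?_⟩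
  · intro ε hε
    obtain ⟨C, _, h⟩ := hu2 ε hε
    refine ⟨C, fun n D hr hg => ?_⟩
    obtain ⟨h1, h2, h3, h4⟩ := h (Fin n) (conv D) (conv_round κ D hr) (conv_genPos D hg)
    rw [conv_fineFaces] at h1 h3 h4
    rw [conv_faces] at h2 h3
    rw [Fintype.card_fin] at h4
    rw [hexp]
    exact ⟨h2, h1, h3, h4⟩
  · intro hκ' hs hb
    obtain ⟨c, hc, h⟩ := KR.u3_gen N hN κ hκ hκ' s b hs hb
    obtain ⟨C, _, hu⟩ := hu2 1 one_pos
    refine ⟨c, hc, fun n hn => ?_⟩
    obtain ⟨D, hr, hg, V, hV, hV2⟩ := h n hn
    let D' : Fin n → Desc (N + 1) s b := fun i => ⟨(D i).P, (hr i).2, (D i).Φ⟩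
    have hD' : conv D' = D := rfl
    refine ⟨D', fun i => ⟨(hr i).1.compact, (hr i).1.body, (hr i).1.round⟩,
      fun x hx => hg x hx, ?_⟩
    have hfin : (KR.Faces D).Finite := (hu (Fin n) D hr hg).2.1
    have hsub : ((V : Set (EuclideanSpace ℝ (Fin (N + 1)))).image
        (fun v => ({v} : Set (EuclideanSpace ℝ (Fin (N + 1)))))) ⊆ KR.Faces D := by
      rintro _ ⟨v, hv, rfl⟩
      obtain ⟨T, l, hT⟩ := hV v hv
      exact KR.vert_face N s b κ (Fin n) D hr T l v hT
    have hcard := Set.ncard_le_ncard hsub hfin
    rw [Set.ncard_image_of_injective _ Set.singleton_injective, Set.ncard_coe_finset, ← hD',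
      conv_faces] at hcard
    have h6 : ((V.card : ℕ) : ℝ) ≤ ((faces D').ncard : ℝ) := by exact_mod_cast hcard
    rw [Nat.add_sub_cancel]
    exact hV2.trans h6

end Pool.Agent.Results.MP_5a1161_co.UnionComplexity
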