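import Pool.Agent.Lib.MP_5a1161_co_h27.Final

set_option autoImplicit false

/-!
# The union of round bodies has fewer than the trivial number of vertices, in every dimension

For every `d ≥ 2`, `κ > 0`, `s`, `b` there are `δ > 0` and `C` such that the union of `n`
`κ`-round bodies of description complexity `(s, b)` in `ℝ^d` has at most `M C n^(d - δ)` vertices
if any `d` of the boundaries have at most `M` common points.
-/

namespace Pool.Agent.Results.MP_5a1161_co.UnionVertices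

open Pool.Agent.MP_5a1161_co

theorem result (d : ℕ) (hd : 2 ≤ d) (κ : ℝ) (hκ : 0 < κ) (s b : ℕ) :
    ∃ δ : ℝ, 0 < δ ∧ ∃ C : ℝ, 0 < C ∧
      ∀ (n : ℕ) (c : Fin n → Set (EuclideanSpace ℝ (Fin d))),
        (∀ i, IsRound κ (c i)) → (∀ i, HasDescription s b (c i)) →
        ∀ M : ℕ,
          (∀ T : Finset (Fin n), T.card = d →
            {x | ∀ i ∈ T, x ∈ frontier (c i)}.encard ≤ M) →
          {x | x ∈ frontier (⋃ i, c i) ∧ {i | x ∈ frontier (c i)}.ncard = d}.Finite ∧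
          ({x | x ∈ frontier (⋃ i, c i) ∧ {i | x ∈ frontier (c i)}.ncard = d}.ncard : ℝ) ≤
            M * (C * (n : ℝ) ^ ((d : ℝ) - δ)) := by
  classical
  obtain ⟨D, rfl⟩ : ∃ D, d = D + 1 := ⟨d - 1, by omega⟩
  obtain ⟨δ, hδ, C, hC, h⟩ := tuples_bound D (by omega) κ hκ s b
  refine ⟨δ, hδ, C, hC, fun n c hr hd => ?_⟩
  obtain ⟨S, hS⟩ : ∃ S : Finset (Finset (Fin n)), ∀ T, T ∈ S ↔ (T.card = D + 1 ∧
      ∃ x ∈ frontier (⋃ i, c i), ∀ i, x ∈ frontier (c i) ↔ i ∈ T) :=
    ⟨Finset.univ.filter fun T => T.card = D + 1 ∧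
      ∃ x ∈ frontier (⋃ i, c i), ∀ i, x ∈ frontier (c i) ↔ i ∈ T, fun T => by
        simp only [Finset.mem_filter, Finset.mem_univ, true_and]⟩
  have hSb := h n c hr hd S fun T hT => (hS T).1 hT
  intro M hM
  have hfin : ∀ T : Finset (Fin n), T.card = D + 1 →
      {x | ∀ i ∈ T, x ∈ frontier (c i)}.Finite := fun T hT =>
    Set.finite_of_encard_le_coe (hM T hT)
  have hsub : {x | x ∈ frontier (⋃ i, c i) ∧ {i | x ∈ frontier (c i)}.ncard = D + 1} ⊆
      ⋃ T ∈ S, {x | ∀ i ∈ T, x ∈ frontier (c i)} := by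
    intro x hx
    obtain ⟨hx1, hx2⟩ := hx
    have hf : {i | x ∈ frontier (c i)}.Finite := Set.toFinite _
    have hm : ∀ i, i ∈ hf.toFinset ↔ x ∈ frontier (c i) := fun i => by
      rw [Set.Finite.mem_toFinset]; rfl
    refine Set.mem_biUnion (x := hf.toFinset) ?_ fun i hi => (hm i).1 hi
    refine (hS _).2 ⟨?_, x, hx1, fun i => (hm i).symm⟩
    have h5 := Set.ncard_eq_toFinset_card _ hf
    exact h5.symm.trans hx2
  have hbfin : (⋃ T ∈ S, {x | ∀ i ∈ T, x ∈ frontier (c i)}).Finite :=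
    S.finite_toSet.biUnion fun T hT => hfin T ((hS T).1 hT).1
  refine ⟨hbfin.subset hsub, ?_⟩
  have h1 : ({x | x ∈ frontier (⋃ i, c i) ∧ {i | x ∈ frontier (c i)}.ncard = D + 1}.ncard) ≤
      M * S.card := by
    refine (Set.ncard_le_ncard hsub hbfin).trans ?_
    have h2 : (⋃ T ∈ S, {x | ∀ i ∈ T, x ∈ frontier (c i)}) =
        ((S.attach.biUnion fun T => (hfin T.1 ((hS T.1).1 T.2).1).toFinset : Finset _) :
          Set (EuclideanSpace ℝ (Fin (D + 1)))) := by
      ext x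
      simp
    rw [h2, Set.ncard_coe_finset]
    refine Finset.card_biUnion_le.trans ?_
    calc ∑ T ∈ S.attach, ((hfin T.1 ((hS T.1).1 T.2).1).toFinset).card
        ≤ ∑ _T ∈ S.attach, M := by
          refine Finset.sum_le_sum fun T _ => ?_
          have h3 := hM T.1 ((hS T.1).1 T.2).1
          rw [Set.Finite.encard_eq_coe_toFinset_card (hfin T.1 ((hS T.1).1 T.2).1)] at h3
          exact_mod_cast h3
      _ = M * S.card := by rw [Finset.sum_const, Finset.card_attach, smul_eq_mul, mul_comm]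
  calc ({x | x ∈ frontier (⋃ i, c i) ∧ {i | x ∈ frontier (c i)}.ncard = D + 1}.ncard : ℝ)
      ≤ ((M * S.card : ℕ) : ℝ) := by exact_mod_cast h1
    _ = M * (S.card : ℝ) := by push_cast; ring
    _ ≤ M * (C * (n : ℝ) ^ (((D + 1 : ℕ) : ℝ) - δ)) :=
        mul_le_mul_of_nonneg_left hSb (Nat.cast_nonneg M)

end Pool.Agent.Results.MP_5a1161_co.UnionVertices
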